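import Pool.Agent.R179.Per.Stmts

set_option autoImplicit false

open MeasureTheory Metric Set
open scoped ENNReal

namespace Pool.Agent.R662.PerC

open Pool.Agent.R179.Per

noncomputable section

/-- polar coordinates in the plane -/
lemma polar (g : Pl → ℝ≥0∞) :
    ∫⁻ x, g x = ∫⁻ p in Ioi (0:ℝ) ×ˢ Ioo (-Real.pi) Real.pi,
      ENNReal.ofReal p.1 * g (p.1 • e p.2) := by
  set F : ℝ × ℝ ≃ᵐ Pl := (MeasurableEquiv.finTwoArrow (α := ℝ)).symm.trans
    (MeasurableEquiv.toLp 2 (Fin 2 → ℝ)) with hF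
  have hm : MeasurePreserving F volume volume :=
    (PiLp.volume_preserving_toLp (Fin 2)).comp ((volume_preserving_finTwoArrow ℝ).symm _)
  rw [← hm.lintegral_comp_emb F.measurableEmbedding, ← lintegral_comp_polarCoord_symm]
  refine setLIntegral_congr_fun (measurableSet_Ioi.prod measurableSet_Ioo) fun p _ => ?_
  simp only [smul_eq_mul]
  congr 2
  ext i
  fin_cases i <;> simp [hF, e, polarCoord]

/-- the Voronoi cell -/
def cell (S : Finset Pl) (a : Pl) : Set Pl := {x | ∀ b ∈ S, dist x a ≤ dist x b}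

lemma cell_meas (S : Finset Pl) (a : Pl) : MeasurableSet (cell S a) := by
  apply IsClosed.measurableSet
  have : cell S a = ⋂ b ∈ S, {x | dist x a ≤ dist x b} := by
    ext x; simp [cell]
  rw [this]
  exact isClosed_biInter fun b _ => isClosed_le (by fun_prop) (by fun_prop)

lemma bis_null (a b : Pl) (h : a ≠ b) : volume {x : Pl | dist x a = dist x b} = 0 := by
  have h1 : {x : Pl | dist x a = dist x b} = (AffineSubspace.perpBisector a b : Set Pl) := by
    ext x
    simp [AffineSubspace.mem_perpBisector_iff_dist_eq]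
  rw [h1]
  apply Measure.addHaar_affineSubspace
  intro h2
  have h3 : a ∈ AffineSubspace.perpBisector a b := by rw [h2]; trivial
  rw [AffineSubspace.mem_perpBisector_iff_dist_eq, dist_self] at h3
  exact h (dist_eq_zero.mp h3.symm)

lemma ae_distinct (S : Finset Pl) :
    ∀ᵐ x : Pl, ∀ a ∈ S, ∀ b ∈ S, a ≠ b → dist x a ≠ dist x b := by
  rw [Filter.eventually_all_finset]
  intro a _
  rw [Filter.eventually_all_finset]
  intro b _
  by_cases h : a = b
  · exact Filter.Eventually.of_forall fun x h2 => absurd h h2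
  · have := bis_null a b h
    rw [measure_eq_zero_iff_ae_notMem] at this
    filter_upwards [this] with x hx _
    exact hx

lemma mem_im (p : Fin 4 → Pl) (a : Pl) : a ∈ im p ↔ ∃ i, p i = a := by
  simp [im]

lemma iInf_eq (p : Fin 4 → Pl) (x a : Pl) (ha : a ∈ im p) (hx : x ∈ cell (im p) a) :
    (⨅ i, dist x (p i) ^ 2) = dist x a ^ 2 := by
  obtain ⟨i, rfl⟩ := (mem_im p a).mp ha
  apply le_antisymm
  · exact ciInf_le (Set.finite_range _).bddBelow i
  · apply le_ciInf
    intro j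
    have := hx (p j) ((mem_im p _).mpr ⟨j, rfl⟩)
    exact pow_le_pow_left₀ dist_nonneg this 2

lemma sum_cell (p : Fin 4 → Pl) (g : ℝ → ℝ≥0∞) :
    ∀ᵐ x : Pl, g (⨅ i, dist x (p i) ^ 2) =
      ∑ a ∈ im p, (cell (im p) a).indicator (fun x => g (dist x a ^ 2)) x := by
  filter_upwards [ae_distinct (im p)] with x hx
  obtain ⟨a, ha, hmin⟩ := Finset.exists_min_image (im p) (fun a => dist x a)
    ⟨p 0, (mem_im p _).mpr ⟨0, rfl⟩⟩
  rw [Finset.sum_eq_single a]
  · rw [Set.indicator_of_mem (show x ∈ cell (im p) a from hmin), iInf_eq p x a ha hmin]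
  · intro b hb hba
    apply Set.indicator_of_notMem
    intro hbx
    exact hx b hb a ha hba (le_antisymm (hbx a ha) (hmin b hb))
  · exact fun h => absurd ha h

lemma norm_e (θ : ℝ) : ‖e θ‖ = 1 := by
  rw [e, EuclideanSpace.norm_eq]
  simp

lemma e_cont : Continuous e := by
  unfold e
  fun_prop

/-- the set of exposed pairs -/
def Ex (S : Finset Pl) (a : Pl) : Set (ℝ × ℝ) := {p | ∀ b ∈ S, p.1 ≤ dist (a + p.1 • e p.2) b}

lemma Ex_meas (S : Finset Pl) (a : Pl) : MeasurableSet (Ex S a) := by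
  apply IsClosed.measurableSet
  have : Ex S a = ⋂ b ∈ S, {p | p.1 ≤ dist (a + p.1 • e p.2) b} := by
    ext x; simp [Ex]
  rw [this]
  refine isClosed_biInter fun b _ => isClosed_le continuous_fst ?_
  have := e_cont
  fun_prop

lemma exposed_eq (S : Finset Pl) (a : Pl) (r : ℝ) :
    exposed S r a = Ioc (-Real.pi) Real.pi ∩ (Prod.mk r ⁻¹' Ex S a) := by
  ext θ; simp [exposed, Ex]

lemma exposed_meas (S : Finset Pl) (a : Pl) (r : ℝ) : MeasurableSet (exposed S r a) := by
  rw [exposed_eq]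
  exact measurableSet_Ioc.inter (measurable_prodMk_left (Ex_meas S a))

lemma cell_integral (S : Finset Pl) (a : Pl) (g : ℝ → ℝ≥0∞) (hg : Measurable g) :
    ∫⁻ x, (cell S a).indicator (fun x => g (dist x a ^ 2)) x =
      ∫⁻ r in Ioi (0:ℝ), ENNReal.ofReal r * g (r ^ 2) * volume (exposed S r a) := by
  have h0 : ∫⁻ x, (cell S a).indicator (fun x => g (dist x a ^ 2)) x =
      ∫⁻ x, (cell S a).indicator (fun x => g (dist x a ^ 2)) (a + x) :=
    (lintegral_add_left_eq_self _ a).symm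
  rw [h0, polar]
  have h1 : ∀ p ∈ Ioi (0:ℝ) ×ˢ Ioo (-Real.pi) Real.pi, ENNReal.ofReal p.1 *
      (cell S a).indicator (fun x => g (dist x a ^ 2)) (a + p.1 • e p.2) =
      (Ex S a).indicator (fun p => ENNReal.ofReal p.1 * g (p.1 ^ 2)) p := by
    rintro p ⟨hp1, -⟩
    have hd : dist (a + p.1 • e p.2) a = p.1 := by
      rw [dist_eq_norm, add_sub_cancel_left, norm_smul, norm_e, mul_one, Real.norm_eq_abs,
        abs_of_pos hp1]
    by_cases h : p ∈ Ex S a
    · have h' : a + p.1 • e p.2 ∈ cell S a := fun b hb => by rw [hd]; exact h b hb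
      rw [Set.indicator_of_mem h, Set.indicator_of_mem h', hd]
    · have h' : a + p.1 • e p.2 ∉ cell S a := fun h2 => h fun b hb => by
        have := h2 b hb
        rwa [hd] at this
      rw [Set.indicator_of_notMem h, Set.indicator_of_notMem h', mul_zero]
  rw [setLIntegral_congr_fun (measurableSet_Ioi.prod measurableSet_Ioo) h1]
  have hmeas : Measurable ((Ex S a).indicator (fun p : ℝ × ℝ => ENNReal.ofReal p.1 * g (p.1 ^ 2))) := by
    refine Measurable.indicator ?_ (Ex_meas S a)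
    exact (measurable_fst.ennreal_ofReal).mul (hg.comp (measurable_fst.pow_const 2))
  rw [Measure.volume_eq_prod, setLIntegral_prod _ hmeas.aemeasurable]
  refine setLIntegral_congr_fun measurableSet_Ioi fun r _ => ?_
  have h2 : ∀ θ : ℝ, (Ex S a).indicator (fun p : ℝ × ℝ => ENNReal.ofReal p.1 * g (p.1 ^ 2)) (r, θ) =
      (Prod.mk r ⁻¹' Ex S a).indicator (fun _ => ENNReal.ofReal r * g (r ^ 2)) θ := by
    intro θ
    by_cases h : (r, θ) ∈ Ex S a
    · rw [Set.indicator_of_mem h, Set.indicator_of_mem (by exact h)]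
    · rw [Set.indicator_of_notMem h, Set.indicator_of_notMem (by exact h)]
  simp only [h2]
  rw [setLIntegral_congr Ioo_ae_eq_Ioc, lintegral_indicator_const (measurable_prodMk_left (Ex_meas S a)),
    Measure.restrict_apply (measurable_prodMk_left (Ex_meas S a)), exposed_eq, inter_comm]

/-- total angle, extended valued -/
def TT (S : Finset Pl) (r : ℝ) : ℝ≥0∞ := ∑ a ∈ S, volume (exposed S r a)

lemma exposed_lt_top (S : Finset Pl) (a : Pl) (r : ℝ) : volume (exposed S r a) ≠ ⊤ := by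
  refine ne_top_of_le_ne_top ?_ (measure_mono (t := Ioc (-Real.pi) Real.pi) fun θ h => h.1)
  simp

lemma TT_ne_top (S : Finset Pl) (r : ℝ) : TT S r ≠ ⊤ :=
  ENNReal.sum_ne_top.mpr fun a _ => exposed_lt_top S a r

lemma T_eq (S : Finset Pl) (r : ℝ) : T S r = (TT S r).toReal := by
  rw [T, TT, ENNReal.toReal_sum fun a _ => exposed_lt_top S a r]

/-- the extended valued planar integral -/
def L2 (φ : ℝ → ℝ) (p : Fin 4 → Pl) : ℝ≥0∞ :=
  ∫⁻ r in Ioi (0:ℝ), ENNReal.ofReal r * ENNReal.ofReal (φ (r ^ 2)) * TT (im p) r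

lemma exposed_fun_meas (S : Finset Pl) (a : Pl) : Measurable fun r : ℝ => volume (exposed S r a) := by
  have h := measurable_measure_prodMk_left (ν := volume.restrict (Ioc (-Real.pi) Real.pi)) (Ex_meas S a)
  convert h using 2 with r
  rw [Measure.restrict_apply (measurable_prodMk_left (Ex_meas S a)), exposed_eq, inter_comm]

lemma I2_eq (φ : ℝ → ℝ) (hφ : Continuous φ) (h0 : ∀ s, 0 ≤ φ s) (p : Fin 4 → Pl) :
    I2 φ p = (L2 φ p).toReal := by
  unfold I2 L2
  have hc : Measurable fun x : Pl => ⨅ i, dist x (p i) ^ 2 :=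
    Measurable.iInf fun i => by fun_prop
  rw [integral_eq_lintegral_of_nonneg_ae (Filter.Eventually.of_forall fun x => h0 _)
    (hφ.measurable.comp hc).aestronglyMeasurable]
  congr 1
  rw [lintegral_congr_ae (sum_cell p fun s => ENNReal.ofReal (φ s)), lintegral_finsetSum]
  · unfold TT
    simp only [Finset.mul_sum]
    rw [lintegral_finsetSum]
    · refine Finset.sum_congr rfl fun a _ => ?_
      exact cell_integral (im p) a (fun s => ENNReal.ofReal (φ s)) hφ.measurable.ennreal_ofReal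
    · intro a _
      refine Measurable.mul (Measurable.mul measurable_id.ennreal_ofReal ?_) (exposed_fun_meas _ a)
      exact (hφ.comp (continuous_pow 2)).measurable.ennreal_ofReal
  · intro a _
    refine Measurable.indicator ?_ (cell_meas _ a)
    exact (hφ.measurable.comp (by fun_prop)).ennreal_ofReal


lemma exposed_iff (S : Finset Pl) (a : Pl) {r : ℝ} (hr : 0 < r) (θ : ℝ) :
    θ ∈ exposed S r a ↔ θ ∈ Ioc (-Real.pi) Real.pi ∧
      ∀ b ∈ S, 2 * r * inner ℝ (b - a) (e θ) ≤ ‖b - a‖ ^ 2 := by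
  have key : ∀ b : Pl, r ≤ dist (a + r • e θ) b ↔
      2 * r * inner ℝ (b - a) (e θ) ≤ ‖b - a‖ ^ 2 := by
    intro b
    have h1 : dist (a + r • e θ) b ^ 2 = r ^ 2 - 2 * r * inner ℝ (b - a) (e θ) + ‖b - a‖ ^ 2 := by
      rw [dist_eq_norm, show a + r • e θ - b = r • e θ - (b - a) by abel, norm_sub_sq_real,
        norm_smul, norm_e, inner_smul_left, real_inner_comm]
      simp
      ring
    rw [← pow_le_pow_iff_left₀ hr.le dist_nonneg (two_ne_zero), h1]
    constructor <;> intro h <;> linarith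
  constructor
  · rintro ⟨h1, h2⟩
    exact ⟨h1, fun b hb => (key b).mp (h2 b hb)⟩
  · rintro ⟨h1, h2⟩
    exact ⟨h1, fun b hb => (key b).mpr (h2 b hb)⟩

lemma exposed_anti (S : Finset Pl) (a : Pl) {r s : ℝ} (hr : 0 < r) (hrs : r ≤ s) :
    exposed S s a ⊆ exposed S r a := by
  intro θ h
  rw [exposed_iff S a (hr.trans_le hrs)] at h
  rw [exposed_iff S a hr]
  refine ⟨h.1, fun b hb => ?_⟩
  have h2 := h.2 b hb
  rcases le_or_gt 0 (inner ℝ (b - a) (e θ)) with h3 | h3
  · nlinarith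
  · have : 0 ≤ ‖b - a‖ ^ 2 := by positivity
    nlinarith

lemma TT_anti (S : Finset Pl) {r s : ℝ} (hr : 0 < r) (hrs : r ≤ s) : TT S s ≤ TT S r :=
  Finset.sum_le_sum fun a _ => measure_mono (exposed_anti S a hr hrs)

lemma null_set (v : Pl) (hv : v ≠ 0) (k : ℝ) :
    volume {θ : ℝ | θ ∈ Ioc (-Real.pi) Real.pi ∧ inner ℝ v (e θ) = k} = 0 := by
  set N : ℝ := v 0 ^ 2 + v 1 ^ 2 with hN
  have hN0 : 0 < N := by
    rcases eq_or_ne (v 0) 0 with h0 | h0
    · rcases eq_or_ne (v 1) 0 with h1 | h1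
      · exfalso
        apply hv
        ext i
        fin_cases i <;> simp [h0, h1]
      · positivity
    · positivity
  set z : ℝ → ℂ := fun w => (((v 0 * k + v 1 * w) / N : ℝ) : ℂ) +
    (((v 1 * k - v 0 * w) / N : ℝ) : ℂ) * Complex.I with hz
  set c : ℝ := Real.sqrt (N - k ^ 2) with hc
  have hsub : {θ : ℝ | θ ∈ Ioc (-Real.pi) Real.pi ∧ inner ℝ v (e θ) = k} ⊆
      {Complex.arg (z c), Complex.arg (z (-c))} := by
    rintro θ ⟨h1, h2⟩
    have h3 : v 0 * Real.cos θ + v 1 * Real.sin θ = k := by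
      rw [← h2, e, PiLp.inner_apply]
      simp [Fin.sum_univ_two]
      ring
    set w : ℝ := -(v 0 * Real.sin θ) + v 1 * Real.cos θ with hw
    have hcs := Real.sin_sq_add_cos_sq θ
    have h4 : w ^ 2 = N - k ^ 2 := by
      rw [hw, ← h3, hN]
      linear_combination (v 0 ^ 2 + v 1 ^ 2) * hcs
    have h5 : w = c ∨ w = -c := by
      rw [← sq_eq_sq_iff_eq_or_eq_neg, h4, hc, Real.sq_sqrt]
      rw [← h4]; positivity
    have h6 : Real.cos θ = (v 0 * k + v 1 * w) / N := by
      rw [eq_div_iff hN0.ne', ← h3, hw, hN]; ring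
    have h7 : Real.sin θ = (v 1 * k - v 0 * w) / N := by
      rw [eq_div_iff hN0.ne', ← h3, hw, hN]; ring
    have h8 : θ = Complex.arg (z w) := by
      rw [hz]
      simp only
      rw [← h6, ← h7, Complex.ofReal_cos, Complex.ofReal_sin]
      exact (Complex.arg_cos_add_sin_mul_I h1).symm
    rcases h5 with h | h
    · left; rw [h8, h]
    · right; rw [h8, h]; rfl
  exact measure_mono_null hsub ((Set.toFinite _).measure_zero _)

lemma right_cont (S : Finset Pl) (a : Pl) (ha : a ∈ S) :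
    volume (exposed S 1 a) ≤ volume (⋃ n : ℕ, exposed S (1 + 1 / ((n:ℝ) + 1)) a) := by
  have hsub : exposed S 1 a ⊆ (⋃ n : ℕ, exposed S (1 + 1 / ((n:ℝ) + 1)) a) ∪
      ⋃ b ∈ S.erase a, {θ : ℝ | θ ∈ Ioc (-Real.pi) Real.pi ∧
        inner ℝ (b - a) (e θ) = ‖b - a‖ ^ 2 / 2} := by
    intro θ hθ
    rw [exposed_iff S a one_pos] at hθ
    by_cases h : ∀ b ∈ S.erase a, 2 * inner ℝ (b - a) (e θ) < ‖b - a‖ ^ 2
    · left
      have h1 : ∀ᶠ r : ℝ in nhds 1, ∀ b ∈ S.erase a, 2 * r * inner ℝ (b - a) (e θ) < ‖b - a‖ ^ 2 := by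
        rw [Filter.eventually_all_finset]
        intro b hb
        have hcont : Filter.Tendsto (fun r : ℝ => 2 * r * inner ℝ (b - a) (e θ)) (nhds 1)
            (nhds (2 * 1 * inner ℝ (b - a) (e θ))) := by
          apply Continuous.tendsto
          fun_prop
        refine hcont.eventually_lt_const ?_
        have := h b hb
        linarith
      have h2 : Filter.Tendsto (fun n : ℕ => 1 + 1 / ((n:ℝ) + 1)) Filter.atTop (nhds 1) := by
        have := (tendsto_one_div_add_atTop_nhds_zero_nat (𝕜 := ℝ)).const_add 1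
        simpa using this
      obtain ⟨n, hn⟩ := (h2.eventually h1).exists
      rw [mem_iUnion]
      refine ⟨n, ?_⟩
      rw [exposed_iff S a (by positivity)]
      refine ⟨hθ.1, fun b hb => ?_⟩
      rcases eq_or_ne b a with rfl | hba
      · simp
      · exact (hn b (Finset.mem_erase.mpr ⟨hba, hb⟩)).le
    · right
      push Not at h
      obtain ⟨b, hb, hb2⟩ := h
      rw [mem_iUnion₂]
      refine ⟨b, hb, hθ.1, ?_⟩
      have := hθ.2 b (Finset.mem_of_mem_erase hb)
      linarith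
  refine (measure_mono hsub).trans ((measure_union_le _ _).trans ?_)
  have hz : volume (⋃ b ∈ S.erase a, {θ : ℝ | θ ∈ Ioc (-Real.pi) Real.pi ∧
        inner ℝ (b - a) (e θ) = ‖b - a‖ ^ 2 / 2}) = 0 := by
    refine (measure_biUnion_null_iff (μ := volume) (S.erase a).countable_toSet).mpr ?_
    intro b hb
    exact null_set (b - a) (sub_ne_zero.mpr (Finset.ne_of_mem_erase hb)) _
  rw [hz, add_zero]

lemma exists_eta (S : Finset Pl) (m : ℝ≥0∞) (hm : m < TT S 1) :
    ∃ η : ℝ, 0 < η ∧ ∀ r, 1 < r → r < 1 + η → m < TT S r := by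
  have h1 : Filter.Tendsto (fun n : ℕ => TT S (1 + 1 / ((n:ℝ) + 1))) Filter.atTop
      (nhds (∑ a ∈ S, volume (⋃ n : ℕ, exposed S (1 + 1 / ((n:ℝ) + 1)) a))) := by
    unfold TT
    refine tendsto_finsetSum _ fun a _ => ?_
    refine tendsto_measure_iUnion_atTop ?_
    intro n k hnk
    apply exposed_anti S a (by positivity)
    have : ((n:ℝ) + 1) ≤ (k:ℝ) + 1 := by exact_mod_cast Nat.succ_le_succ hnk
    have := one_div_le_one_div_of_le (by positivity : (0:ℝ) < n + 1) this
    linarith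
  have h2 : m < ∑ a ∈ S, volume (⋃ n : ℕ, exposed S (1 + 1 / ((n:ℝ) + 1)) a) :=
    hm.trans_le (Finset.sum_le_sum fun a ha => right_cont S a ha)
  obtain ⟨n, hn⟩ := (h1.eventually_const_lt h2).exists
  refine ⟨1 / ((n:ℝ) + 1), by positivity, fun r hr1 hr2 => hn.trans_le ?_⟩
  exact TT_anti S (by linarith) hr2.le

theorem c_ok : St_C := by
  intro p q h
  by_contra hcon
  push Not at hcon
  rw [T_eq, T_eq] at hcon
  have hlt : TT (im p) 1 < TT (im q) 1 :=
    (ENNReal.toReal_lt_toReal (TT_ne_top _ _) (TT_ne_top _ _)).mp hcon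
  obtain ⟨m, hm1, hm2⟩ := exists_between hlt
  obtain ⟨η, hη, hη2⟩ := exists_eta (im q) m hm2
  -- the bump
  let f : ContDiffBump (1 + η : ℝ) := ⟨η / 2, η, by linarith, by linarith⟩
  have hf0 : ∀ s, 0 ≤ f s := fun s => f.nonneg
  have hftest : Test (fun s => f s) := ⟨f.contDiff, f.hasCompactSupport, hf0⟩
  have hsupp : ∀ r : ℝ, 0 < r → f (r ^ 2) ≠ 0 → 1 < r ∧ r < 1 + η := by
    intro r hr hne
    have h1 : r ^ 2 ∈ Function.support f := hne
    rw [f.support_eq, Real.ball_eq_Ioo] at h1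
    obtain ⟨h2, h3⟩ := h1
    have h2' : 1 < r ^ 2 := by
      have : (1 + η - f.rOut : ℝ) = 1 := by simp [f]
      linarith
    have h3' : r ^ 2 < 1 + 2 * η := by
      have : (1 + η + f.rOut : ℝ) = 1 + 2 * η := by simp [f]; ring
      linarith
    constructor <;> nlinarith
  set K : ℝ≥0∞ := ∫⁻ r in Ioi (0:ℝ), ENNReal.ofReal r * ENNReal.ofReal (f (r ^ 2)) with hK
  have hgm : Measurable fun r : ℝ => ENNReal.ofReal r * ENNReal.ofReal (f (r ^ 2)) :=
    measurable_id.ennreal_ofReal.mul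
      ((f.continuous.comp (continuous_pow 2)).measurable.ennreal_ofReal)
  have hKtop : K ≠ ⊤ := by
    have hle : K ≤ ∫⁻ r, (Ioo (1:ℝ) (1 + η)).indicator (fun _ => ENNReal.ofReal (1 + η)) r := by
      refine (setLIntegral_mono' measurableSet_Ioi (g := fun r =>
        (Ioo (1:ℝ) (1 + η)).indicator (fun _ => ENNReal.ofReal (1 + η)) r) ?_).trans
        (setLIntegral_le_lintegral _ _)
      intro r hr
      by_cases h0 : f (r ^ 2) = 0
      · simp [h0]
      · obtain ⟨h1, h2⟩ := hsupp r hr h0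
        rw [Set.indicator_of_mem (show r ∈ Ioo (1:ℝ) (1 + η) from ⟨h1, h2⟩)]
        calc ENNReal.ofReal r * ENNReal.ofReal (f (r ^ 2)) ≤ ENNReal.ofReal (1 + η) * 1 := by
              refine mul_le_mul' (ENNReal.ofReal_le_ofReal h2.le) ?_
              rw [← ENNReal.ofReal_one]
              exact ENNReal.ofReal_le_ofReal f.le_one
          _ = _ := mul_one _
    refine ne_top_of_le_ne_top ?_ hle
    rw [lintegral_indicator_const measurableSet_Ioo]
    simp [ENNReal.mul_eq_top]
  have hKpos : 0 < K := by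
    rw [hK, lintegral_pos_iff_support hgm]
    have hop : IsOpen (Ioi (0:ℝ) ∩ (fun r : ℝ => r ^ 2) ⁻¹' (Function.support f)) := by
      refine isOpen_Ioi.inter (IsOpen.preimage (continuous_pow 2) ?_)
      rw [f.support_eq]; exact isOpen_ball
    have hne : (Ioi (0:ℝ) ∩ (fun r : ℝ => r ^ 2) ⁻¹' (Function.support f)).Nonempty := by
      refine ⟨Real.sqrt (1 + η), Real.sqrt_pos.mpr (by linarith), ?_⟩
      rw [mem_preimage, Real.sq_sqrt (by linarith), f.support_eq]
      exact mem_ball_self f.rOut_pos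
    have hpos := hop.measure_pos volume hne
    refine hpos.trans_le ?_
    rw [Measure.restrict_apply (measurableSet_support hgm)]
    refine measure_mono ?_
    rintro r ⟨hr, hr2⟩
    refine ⟨?_, hr⟩
    have h1 : 0 < f (r ^ 2) := lt_of_le_of_ne (hf0 _) (Ne.symm hr2)
    have h2 : (0:ℝ) < r := hr
    rw [Function.mem_support]
    have h3 : 0 < ENNReal.ofReal r := ENNReal.ofReal_pos.mpr h2
    have h4 : 0 < ENNReal.ofReal (f (r ^ 2)) := ENNReal.ofReal_pos.mpr h1
    exact mul_ne_zero h3.ne' h4.ne'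
  have hLp : L2 (fun s => f s) p ≤ TT (im p) 1 * K := by
    rw [hK, ← lintegral_const_mul _ hgm]
    refine setLIntegral_mono' measurableSet_Ioi fun r hr => ?_
    by_cases h0 : f (r ^ 2) = 0
    · simp [h0]
    · obtain ⟨h1, h2⟩ := hsupp r hr h0
      rw [mul_comm]
      exact mul_le_mul' (TT_anti _ one_pos h1.le) le_rfl
  have hLq : m * K ≤ L2 (fun s => f s) q := by
    rw [hK, ← lintegral_const_mul _ hgm]
    refine setLIntegral_mono' measurableSet_Ioi fun r hr => ?_
    by_cases h0 : f (r ^ 2) = 0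
    · simp [h0]
    · obtain ⟨h1, h2⟩ := hsupp r hr h0
      rw [mul_comm]
      exact mul_le_mul' le_rfl (hη2 r h1 h2).le
  have hLqtop : L2 (fun s => f s) q ≠ ⊤ := by
    refine ne_top_of_le_ne_top (b := TT (im q) 1 * K) (ENNReal.mul_ne_top (TT_ne_top _ _) hKtop) ?_
    rw [hK, ← lintegral_const_mul _ hgm]
    refine setLIntegral_mono' measurableSet_Ioi fun r hr => ?_
    by_cases h0 : f (r ^ 2) = 0
    · simp [h0]
    · obtain ⟨h1, h2⟩ := hsupp r hr h0
      rw [mul_comm]
      exact mul_le_mul' (TT_anti _ one_pos h1.le) le_rfl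
  have hLptop : L2 (fun s => f s) p ≠ ⊤ :=
    ne_top_of_le_ne_top (ENNReal.mul_ne_top (TT_ne_top _ _) hKtop) hLp
  have hI := h _ hftest
  rw [I2_eq _ f.continuous hf0, I2_eq _ f.continuous hf0] at hI
  have hI2 := (ENNReal.toReal_le_toReal hLqtop hLptop).mp hI
  have hfin : m * K ≤ TT (im p) 1 * K := hLq.trans (hI2.trans hLp)
  rw [ENNReal.mul_le_mul_iff_left hKpos.ne' hKtop] at hfin
  exact absurd hfin (not_le.mpr hm1)

end

end Pool.Agent.R662.PerC
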