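import Pool.Agent.R627.AC.Stm

/-! AC9: StZ (helper662, for project AC of helper627) -/

namespace Pool.Agent.R662.AC9

open PowerSeries Metric Pool.Agent.R194.Baz MeasureTheory Filter Topology
open Pool.Agent.R627.AC

theorem carath {p : ℂ → ℂ} (hp : An p) (hpos : ∀ z ∈ ball (0:ℂ) 1, 0 < (p z).re)
    (hp0 : p 0 = 1) (m : ℕ) (hm : m ≠ 0) : ‖coeff m (tay p)‖ ≤ 2 := by
  have key : ∀ r : ℝ, 0 < r → r < 1 → r ^ m * ‖coeff m (tay p)‖ ≤ 2 := by
    intro r h0 h1
    obtain ⟨ν, hν, h⟩ := herglotz hp hpos hp0 h0 h1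
    have h2 := congrArg norm (h m)
    rw [norm_mul, norm_mul, norm_pow, Complex.norm_real, Real.norm_eq_abs, abs_of_pos h0, P0,
      coeff_mk, if_neg hm] at h2
    have h3 : ‖∫ θ : ℝ, Complex.exp (-(θ * Complex.I)) ^ m ∂ν‖ ≤ 1 := by
      have h4 := norm_integral_le_of_norm_le_const (μ := ν) (C := 1)
        (f := fun θ : ℝ => Complex.exp (-(θ * Complex.I)) ^ m)
        (Eventually.of_forall fun θ => by
          rw [norm_pow, ← neg_mul, ← Complex.ofReal_neg, Complex.norm_exp_ofReal_mul_I, one_pow])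
      rwa [probReal_univ, mul_one] at h4
    rw [h2]
    have h5 : ‖(2 : ℂ)‖ = 2 := by simp
    rw [h5]
    linarith
  have ht : Tendsto (fun r : ℝ => r ^ m * ‖coeff m (tay p)‖) (𝓝[<] 1)
      (𝓝 (1 ^ m * ‖coeff m (tay p)‖)) :=
    (((continuous_pow m).mul continuous_const).tendsto 1).mono_left nhdsWithin_le_nhds
  rw [one_pow, one_mul] at ht
  refine le_of_tendsto ht ?_
  filter_upwards [Ioo_mem_nhdsLT (show (0:ℝ) < 1 by norm_num)] with r hr
  exact key r hr.1 hr.2

theorem z_coeff_aux : StZ := by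
  intro p L hp hp0 hpos hL hL0 hode i
  have h00 : (0:ℂ) ∈ ball (0:ℂ) 1 := mem_ball_self one_pos
  have hLan : AnalyticAt ℂ L 0 := hL.analyticAt (ball_mem_nhds _ one_pos)
  have hpan : AnalyticAt ℂ p 0 := hp.analyticAt (ball_mem_nhds _ one_pos)
  have hZ : (tay fun z => Complex.exp (L z / 2)) = pw L (1/2) := by
    unfold pw
    congr 1
    funext z
    congr 1
    push_cast
    ring
  rw [hZ]
  -- `X * tay L' = tay p - 1`
  have hX : X * tay (deriv L) = tay p - 1 := by
    have h1 : tay (fun z => z * deriv L z) = X * tay (deriv L) := by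
      have h := tay_mul (f := fun z => z) (g := deriv L) analyticAt_id hLan.deriv
      rw [tay_id] at h
      exact h
    rw [← h1, tay_congr_ball (g := fun z => p z + (-1)) (fun z hz => by rw [hode z hz]; ring),
      tay_add hpan analyticAt_const, tay_const]
    rw [map_neg, map_one]
    ring
  have hc : ∀ k, ‖coeff k (tay (deriv L))‖ ≤ 2 := by
    intro k
    have h1 := congrArg (coeff (k+1)) hX
    rw [coeff_succ_X_mul, map_sub, coeff_one, if_neg (Nat.succ_ne_zero k), sub_zero] at h1
    rw [h1]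
    exact carath hp hpos hp0 (k+1) (Nat.succ_ne_zero k)
  induction i using Nat.strong_induction_on with
  | _ i ih =>
    rcases Nat.eq_zero_or_pos i with h | h
    · subst h
      rw [coeff_zero_eq_constantCoeff_apply, pw, tay_zero, hL0]
      simp
    · obtain ⟨k, rfl⟩ : ∃ k, i = k + 1 := ⟨i - 1, by omega⟩
      have h2 := congrArg (coeff k) (pw_ode hLan (1/2))
      rw [coeff_derivative, coeff_C_mul, PowerSeries.coeff_mul] at h2
      have h3 := congrArg norm h2
      rw [norm_mul, norm_mul] at h3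
      have h4 : ‖((k : ℂ) + 1)‖ = (k : ℝ) + 1 := by
        have : ((k : ℂ) + 1) = (((k : ℝ) + 1 : ℝ) : ℂ) := by push_cast; rfl
        rw [this, Complex.norm_real, Real.norm_eq_abs, abs_of_nonneg (by positivity)]
      have h5 : ‖((1/2 : ℝ) : ℂ)‖ = 1/2 := by
        rw [Complex.norm_real, Real.norm_eq_abs, abs_of_pos (by norm_num)]
      rw [h4, h5] at h3
      have h6 : ‖∑ q ∈ Finset.HasAntidiagonal.antidiagonal k, coeff q.1 (tay (deriv L)) * coeff q.2 (pw L (1/2))‖ ≤
          2 * ((k : ℝ) + 1) := by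
        refine (norm_sum_le _ _).trans ?_
        calc ∑ q ∈ Finset.HasAntidiagonal.antidiagonal k, ‖coeff q.1 (tay (deriv L)) * coeff q.2 (pw L (1/2))‖
            ≤ ∑ _q ∈ Finset.HasAntidiagonal.antidiagonal k, (2 : ℝ) := by
              refine Finset.sum_le_sum fun q hq => ?_
              rw [Finset.HasAntidiagonal.mem_antidiagonal] at hq
              rw [norm_mul]
              have e1 := hc q.1
              have e2 := ih q.2 (by omega)
              nlinarith [norm_nonneg (coeff q.1 (tay (deriv L))),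
                norm_nonneg (coeff q.2 (pw L (1/2)))]
          _ = 2 * ((k : ℝ) + 1) := by
              rw [Finset.sum_const, Finset.Nat.card_antidiagonal, nsmul_eq_mul]
              push_cast
              ring
      have h7 : (0:ℝ) < (k:ℝ) + 1 := by positivity
      by_contra h8
      push Not at h8
      nlinarith

end Pool.Agent.R662.AC9

theorem Pool.Agent.R627.AC.z_coeff : Pool.Agent.R627.AC.StZ := Pool.Agent.R662.AC9.z_coeff_aux
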