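import Pool.Agent.R974.AT.Defs

/-! AT-REFL: one half of the reflection principle (helper662, for project AT of helper974) -/

set_option autoImplicit false

open MeasureTheory ProbabilityTheory Filter Topology Set
open scoped ENNReal NNReal

universe u

namespace Pool.Agent.R662.ATREFL

section gauss

variable {Ω : Type u} [MeasurableSpace Ω] {P : Measure Ω} [IsProbabilityMeasure P] {X : Ω → ℝ}
  {v : ℝ≥0}

theorem symm_law (hX : Measurable X) (hl : P.map X = gaussianReal 0 v) (a : ℝ) :
    P.real {ω | X ω < -a} = P.real {ω | a < X ω} := by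
  have h1 : P {ω | X ω < -a} = gaussianReal 0 v (Iio (-a)) := by
    rw [← hl, Measure.map_apply hX measurableSet_Iio]
    rfl
  have h2 : P {ω | a < X ω} = gaussianReal 0 v (Ioi a) := by
    rw [← hl, Measure.map_apply hX measurableSet_Ioi]
    rfl
  have e : Measure.map (fun x : ℝ => -x) (gaussianReal 0 v) = gaussianReal 0 v := by
    rw [gaussianReal_map_neg, neg_zero]
  have h3 : gaussianReal 0 v (Iio (-a)) = gaussianReal 0 v (Ioi a) := by
    calc gaussianReal 0 v (Iio (-a)) =
          Measure.map (fun x : ℝ => -x) (gaussianReal 0 v) (Iio (-a)) := by rw [e]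
      _ = gaussianReal 0 v (Ioi a) := by
          rw [Measure.map_apply measurable_neg measurableSet_Iio]
          congr 1
          ext x
          simp
  rw [measureReal_def, measureReal_def, h1, h2, h3]

theorem half (hX : Measurable X) (hl : P.map X = gaussianReal 0 v) :
    P.real {ω | X ω < 0} ≤ 1 / 2 := by
  have h := symm_law hX hl 0
  rw [neg_zero] at h
  have hd : Disjoint {ω | X ω < 0} {ω | 0 < X ω} := by
    rw [Set.disjoint_left]
    intro ω h1 h2
    have h1' : X ω < 0 := h1
    have h2' : 0 < X ω := h2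
    exact lt_asymm h1' h2'
  have h1 := measureReal_union (μ := P) hd (measurableSet_lt measurable_const hX)
  have h2 : P.real ({ω | X ω < 0} ∪ {ω | 0 < X ω}) ≤ 1 := measureReal_le_one
  linarith

theorem tail (hX : Measurable X) (hl : P.map X = gaussianReal 0 v) (hv : 0 < v) {e : ℝ}
    (he : 0 < e) : P.real {ω | e ≤ X ω} ≤ Real.exp (-(e ^ 2 / (2 * v))) := by
  have hv' : (0 : ℝ) < v := by exact_mod_cast hv
  have hi : Integrable (fun ω => Real.exp ((e / v) * X ω)) P := by
    have h := integrable_exp_mul_gaussianReal (μ := 0) (v := v) (e / v)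
    rw [← hl] at h
    exact h.comp_measurable hX
  have h := measure_ge_le_exp_mul_mgf e (by positivity) hi
  rw [mgf_gaussianReal hl, ← Real.exp_add] at h
  refine h.trans (Real.exp_le_exp.2 (le_of_eq ?_))
  field_simp
  ring

theorem ball (hX : Measurable X) (hl : P.map X = gaussianReal 0 v) (hv : 0 < v) {a : ℝ}
    (ha : 0 ≤ a) : P.real {ω | |X ω| ≤ a} ≤ a / √(v : ℝ) := by
  have hv' : (0 : ℝ) < v := by exact_mod_cast hv
  have h1 : P {ω | |X ω| ≤ a} = gaussianReal 0 v (Icc (-a) a) := by
    rw [← hl, Measure.map_apply hX measurableSet_Icc]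
    congr 1
    ext ω
    show |X ω| ≤ a ↔ -a ≤ X ω ∧ X ω ≤ a
    exact abs_le
  have h2 : ∫ x in Icc (-a) a, gaussianPDFReal 0 v x ≤ ∫ _x in Icc (-a) a, (√(2 * Real.pi * v))⁻¹ := by
    apply setIntegral_mono_on
    · exact (integrable_gaussianPDFReal 0 v).integrableOn
    · exact integrableOn_const (by simp)
    · exact measurableSet_Icc
    · intro x _
      rw [gaussianPDFReal_def]
      have h3 : Real.exp (-(x - 0) ^ 2 / (2 * v)) ≤ 1 := by
        rw [Real.exp_le_one_iff]
        apply div_nonpos_of_nonpos_of_nonneg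
        · nlinarith [sq_nonneg (x - 0)]
        · positivity
      calc (√(2 * Real.pi * v))⁻¹ * Real.exp (-(x - 0) ^ 2 / (2 * v))
          ≤ (√(2 * Real.pi * v))⁻¹ * 1 := mul_le_mul_of_nonneg_left h3 (by positivity)
        _ = _ := mul_one _
  have h4 : ∫ _x in Icc (-a) a, (√(2 * Real.pi * v))⁻¹ = 2 * a * (√(2 * Real.pi * v))⁻¹ := by
    rw [setIntegral_const, measureReal_def, Real.volume_Icc, ENNReal.toReal_ofReal (by linarith),
      smul_eq_mul]
    ring
  have h5 : 2 * a * (√(2 * Real.pi * v))⁻¹ ≤ a / √(v : ℝ) := by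
    have h6 : 2 * √(v : ℝ) ≤ √(2 * Real.pi * v) := by
      apply Real.le_sqrt_of_sq_le
      rw [mul_pow, Real.sq_sqrt hv'.le]
      nlinarith [Real.pi_gt_three]
    have h7 : 0 < √(v : ℝ) := Real.sqrt_pos.2 hv'
    rw [← div_eq_mul_inv, div_le_div_iff₀ (by linarith) h7]
    nlinarith
  rw [measureReal_def, h1, gaussianReal_apply_eq_integral 0 hv.ne',
    ENNReal.toReal_ofReal (integral_nonneg fun x => gaussianPDFReal_nonneg _ _ _)]
  linarith

end gauss

/-! ### the discrete reflection -/

/-- first passage below `-y` -/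
def fp {Ω : Type u} (S : ℕ → Ω → ℝ) (y : ℝ) (k : ℕ) : Set Ω :=
  {ω | (∀ j, j < k → -y ≤ S j ω) ∧ S k ω < -y}

theorem fp_meas {Ω : Type u} [MeasurableSpace Ω] {S : ℕ → Ω → ℝ} {n : ℕ}
    (hS : ∀ k ≤ n, Measurable (S k)) (y : ℝ) {k : ℕ} (hk : k ≤ n) : MeasurableSet (fp S y k) := by
  have h1 : MeasurableSet {ω | ∀ j, j < k → -y ≤ S j ω} := by
    have : {ω | ∀ j, j < k → -y ≤ S j ω} = ⋂ j, ⋂ (_ : j < k), {ω | -y ≤ S j ω} := by
      ext ω
      simp
    rw [this]
    exact MeasurableSet.iInter fun j => MeasurableSet.iInter fun hj =>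
      measurableSet_le measurable_const (hS j (by omega))
  exact h1.inter (measurableSet_lt (hS k hk) measurable_const)

theorem discrete {Ω : Type u} [MeasurableSpace Ω] (P : Measure Ω) [IsProbabilityMeasure P]
    (S : ℕ → Ω → ℝ) (n : ℕ) (hS : ∀ k ≤ n, Measurable (S k)) {y e : ℝ} (hy : 0 ≤ y)
    (he : 0 ≤ e) (h0 : ∀ ω, S 0 ω = 0)
    (hE : ∀ k ≤ n, P.real (fp S y k ∩ {ω | S n ω - S k ω < 0}) ≤ P.real (fp S y k) / 2) :
    2 * P.real {ω | S n ω < -(y + e)} ≤ P.real {ω | ∃ k, k ≤ n ∧ S k ω < -y} +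
      2 * P.real {ω | ∃ k, k < n ∧ e < |S (k + 1) ω - S k ω|} := by
  have hF : {ω | ∃ k, k ≤ n ∧ S k ω < -y} = ⋃ k ∈ Finset.range (n + 1), fp S y k := by
    ext ω
    simp only [Set.mem_ofPred_eq, Set.mem_iUnion, Finset.mem_range, exists_prop]
    constructor
    · rintro ⟨k, hk, h⟩
      classical
      have hex : ∃ k, S k ω < -y := ⟨k, h⟩
      refine ⟨Nat.find hex, ?_, ?_, Nat.find_spec hex⟩
      · have := Nat.find_min' hex h
        omega
      · intro j hj
        exact not_lt.1 (Nat.find_min hex hj)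
    · rintro ⟨k, hk, h⟩
      exact ⟨k, by omega, h.2⟩
  have hdis : Set.PairwiseDisjoint (↑(Finset.range (n + 1))) (fp S y) := by
    intro k _ l _ hkl
    rw [Function.onFun, Set.disjoint_left]
    intro ω h1 h2
    rcases lt_trichotomy k l with h | h | h
    · have := h2.1 k h
      linarith [h1.2]
    · exact hkl h
    · have := h1.1 l h
      linarith [h2.2]
  have hFsum : P.real {ω | ∃ k, k ≤ n ∧ S k ω < -y} =
      ∑ k ∈ Finset.range (n + 1), P.real (fp S y k) := by
    rw [hF]
    exact measureReal_biUnion_finset hdis fun k hk =>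
      fp_meas hS y (by have := Finset.mem_range.1 hk; omega)
  have hsub : {ω | S n ω < -(y + e)} ⊆
      (⋃ k ∈ Finset.range (n + 1), (fp S y k ∩ {ω | S n ω - S k ω < 0})) ∪
        {ω | ∃ k, k < n ∧ e < |S (k + 1) ω - S k ω|} := by
    intro ω hω
    have hω' : S n ω < -(y + e) := hω
    by_cases hN : ∃ k, k < n ∧ e < |S (k + 1) ω - S k ω|
    · exact Or.inr hN
    · left
      push Not at hN
      classical
      have hex : ∃ k, S k ω < -y := ⟨n, by linarith⟩
      have hk1 : Nat.find hex ≤ n := Nat.find_min' hex (by linarith)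
      have hk2 := Nat.find_spec hex
      have hk3 : ∀ j, j < Nat.find hex → -y ≤ S j ω := fun j hj => not_lt.1 (Nat.find_min hex hj)
      set k := Nat.find hex with hk
      have hk0 : k ≠ 0 := by
        intro h
        rw [h, h0] at hk2
        linarith
      obtain ⟨j, hj⟩ := Nat.exists_eq_succ_of_ne_zero hk0
      have hj' : k = j + 1 := hj
      have h1 := hk3 j (by omega)
      have h2 := hN j (by omega)
      have h3 := (abs_le.1 h2).1
      rw [← hj'] at h3
      simp only [Set.mem_iUnion, Finset.mem_range, exists_prop]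
      refine ⟨k, by omega, ⟨hk3, hk2⟩, ?_⟩
      show S n ω - S k ω < 0
      linarith
  have h1 : P.real {ω | S n ω < -(y + e)} ≤
      ∑ k ∈ Finset.range (n + 1), P.real (fp S y k) / 2 +
        P.real {ω | ∃ k, k < n ∧ e < |S (k + 1) ω - S k ω|} := by
    refine (measureReal_mono hsub).trans ((measureReal_union_le _ _).trans ?_)
    gcongr
    refine (measureReal_biUnion_finset_le _ _).trans ?_
    exact Finset.sum_le_sum fun k hk => hE k (by have := Finset.mem_range.1 hk; omega)
  rw [← Finset.sum_div, ← hFsum] at h1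
  linarith

/-! ### the Gaussian process -/

section process

variable {Ω : Type u} [MeasurableSpace Ω] {P : Measure Ω} [IsProbabilityMeasure P]
  {V : ℝ≥0 → Ω → ℝ} {c : ℝ≥0} {σ : ℝ}

theorem law_sub (hG : IsGaussianProcess (fun t : Set.Iic c => V t) P)
    (hm : ∀ t, t ≤ c → ∫ ω, V t ω ∂P = 0)
    (hc : ∀ s t, s ≤ t → t ≤ c → cov[V s, V t; P] = σ * s) {s t : ℝ≥0} (hst : s ≤ t)
    (htc : t ≤ c) : P.map (fun ω => V t ω - V s ω) = gaussianReal 0 (σ * (t - s)).toNNReal := by
  have hs := hG.hasGaussianLaw_eval ⟨s, hst.trans htc⟩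
  have ht := hG.hasGaussianLaw_eval ⟨t, htc⟩
  have h := (hG.hasGaussianLaw_fun_sub (s := ⟨t, htc⟩) (t := ⟨s, hst.trans htc⟩))
  have hs2 : MemLp (V s) 2 P := hs.memLp_two
  have ht2 : MemLp (V t) 2 P := ht.memLp_two
  have h1 := h.map_eq_gaussianReal
  have hmean : ∫ ω, (V t ω - V s ω) ∂P = 0 := by
    rw [integral_sub (ht2.integrable (by norm_num)) (hs2.integrable (by norm_num)), hm t htc,
      hm s (hst.trans htc), sub_zero]
  have hvar : Var[fun ω => V t ω - V s ω; P] = σ * (t - s) := by
    rw [← covariance_self (X := fun ω => V t ω - V s ω) (ht2.sub hs2).1.aemeasurable, covariance_fun_sub_fun_sub ht2 hs2 ht2 hs2,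
      hc t t le_rfl htc, covariance_comm (V t) (V s), hc s t hst htc, hc s s le_rfl
      (hst.trans htc)]
    ring
  show P.map (fun ω => V t ω - V s ω) = _
  have h2 : P.map (fun ω => V t ω - V s ω) =
      gaussianReal (∫ ω, (V t ω - V s ω) ∂P) (Var[fun ω => V t ω - V s ω; P]).toNNReal := h1
  rw [h2, hmean, hvar]

theorem indep (hG : IsGaussianProcess (fun t : Set.Iic c => V t) P)
    (hc : ∀ s t, s ≤ t → t ≤ c → cov[V s, V t; P] = σ * s) (r : ℕ → ℝ≥0) (hr : Monotone r)
    {n k : ℕ} (hk : k ≤ n) (hrn : r n ≤ c) :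
    IndepFun (fun ω (j : Fin (k + 1)) => V (r j) ω)
      (fun ω (_ : Unit) => V (r n) ω - V (r k) ω) P := by
  classical
  have hrk : r k ≤ r n := hr hk
  have hrj : ∀ j : Fin (k + 1), r j ≤ r k := fun j => hr (by omega)
  have hmem : ∀ t, t ≤ c → MemLp (V t) 2 P := fun t ht =>
    (hG.hasGaussianLaw_eval ⟨t, ht⟩).memLp_two
  have hGP : IsGaussianProcess (Sum.elim (fun (j : Fin (k + 1)) ω => V (r j) ω)
      (fun (_ : Unit) ω => V (r n) ω - V (r k) ω)) P := by
    refine hG.of_isGaussianProcess ?_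
    rintro (j | j)
    · exact ⟨{⟨r j, (hrj j).trans (hrk.trans hrn)⟩},
        ContinuousLinearMap.proj ⟨⟨r j, (hrj j).trans (hrk.trans hrn)⟩, by simp⟩, fun ω => rfl⟩
    · exact ⟨{⟨r n, hrn⟩, ⟨r k, hrk.trans hrn⟩},
        ContinuousLinearMap.proj ⟨⟨r n, hrn⟩, by simp⟩ -
          ContinuousLinearMap.proj ⟨⟨r k, hrk.trans hrn⟩, by simp⟩, fun ω => rfl⟩
  refine hGP.indepFun_of_covariance_eq_zero (fun j => ?_) (fun _ => ?_) (fun j _ => ?_)
  · exact (hmem _ ((hrj j).trans (hrk.trans hrn))).1.aemeasurable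
  · exact ((hmem _ hrn).sub (hmem _ (hrk.trans hrn))).1.aemeasurable
  · show cov[V (r j), fun ω => V (r n) ω - V (r k) ω; P] = 0
    rw [covariance_fun_sub_right (hmem _ ((hrj j).trans (hrk.trans hrn))) (hmem _ hrn)
      (hmem _ (hrk.trans hrn)), hc _ _ ((hrj j).trans hrk) hrn, hc _ _ (hrj j) (hrk.trans hrn),
      sub_self]

end process

theorem refl : R974.AT.S_REFL.{u} := by
  intro Ω _ P _ V c σ hc0 hσ hG hmeas hV0 _ hmean hcov y hy
  have hc0' : (0 : ℝ) < c := by exact_mod_cast hc0
  set v : ℝ≥0 := (σ * c).toNNReal with hv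
  have hσc : 0 < σ * c := mul_pos hσ hc0'
  have hvR : (v : ℝ) = σ * c := Real.coe_toNNReal _ hσc.le
  have hv0 : 0 < v := Real.toNNReal_pos.2 hσc
  set G : Set Ω := {ω | ∀ u, u ≤ c → -y ≤ V u ω} with hGdef
  -- the estimate on a grid
  have hgrid : ∀ (e : ℝ), 0 < e → ∀ n : ℕ, 1 ≤ n → P.real G ≤ (y + e) / √(σ * c) +
      4 * (n * Real.exp (-(e ^ 2 / (2 * (σ * c)))) ^ n) := by
    intro e he n hn
    have hn0 : (0 : ℝ) < n := by exact_mod_cast hn
    have hnn : (n : ℝ≥0) ≠ 0 := by
      have : n ≠ 0 := by omega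
      exact_mod_cast this
    set r : ℕ → ℝ≥0 := fun k => (k : ℝ≥0) / n * c with hr
    have hrm : Monotone r := by
      intro a b hab
      show (a : ℝ≥0) / n * c ≤ (b : ℝ≥0) / n * c
      have : (a : ℝ≥0) ≤ b := by exact_mod_cast hab
      gcongr
    have hrn : r n = c := by
      show (n : ℝ≥0) / n * c = c
      rw [div_self hnn, one_mul]
    have hr0 : r 0 = 0 := by
      show ((0 : ℕ) : ℝ≥0) / n * c = 0
      simp
    have hrc : ∀ k, k ≤ n → r k ≤ c := fun k hk => (hrm hk).trans hrn.le
    set S : ℕ → Ω → ℝ := fun k => V (r k) with hS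
    have hSm : ∀ k ≤ n, Measurable (S k) := fun k hk => hmeas _ (hrc k hk)
    have hS0 : ∀ ω, S 0 ω = 0 := fun ω => by
      show V (r 0) ω = 0
      rw [hr0, hV0]
    -- independence
    have hE : ∀ k ≤ n, P.real (fp S y k ∩ {ω | S n ω - S k ω < 0}) ≤ P.real (fp S y k) / 2 := by
      intro k hk
      have hi := indep hG hcov r hrm hk hrn.le
      set A : Set (Fin (k + 1) → ℝ) :=
        {x | (∀ j : Fin (k + 1), (j : ℕ) < k → -y ≤ x j) ∧ x (Fin.last k) < -y} with hA
      have hAm : MeasurableSet A := by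
        have h1 : MeasurableSet {x : Fin (k + 1) → ℝ |
            ∀ j : Fin (k + 1), (j : ℕ) < k → -y ≤ x j} := by
          have : {x : Fin (k + 1) → ℝ | ∀ j : Fin (k + 1), (j : ℕ) < k → -y ≤ x j} =
              ⋂ j : Fin (k + 1), ⋂ (_ : (j : ℕ) < k), {x | -y ≤ x j} := by
            ext x
            simp
          rw [this]
          exact MeasurableSet.iInter fun j => MeasurableSet.iInter fun _ =>
            measurableSet_le measurable_const (measurable_pi_apply j)
        exact h1.inter (measurableSet_lt (measurable_pi_apply _) measurable_const)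
      have hBm : MeasurableSet {x : Unit → ℝ | x () < 0} :=
        measurableSet_lt (measurable_pi_apply _) measurable_const
      have h1 := hi.measure_inter_preimage_eq_mul A {x : Unit → ℝ | x () < 0} hAm hBm
      have h2 : (fun ω (j : Fin (k + 1)) => V (r j) ω) ⁻¹' A = fp S y k := by
        ext ω
        constructor
        · rintro ⟨h3, h4⟩
          exact ⟨fun j hj => h3 ⟨j, by omega⟩ hj, h4⟩
        · rintro ⟨h3, h4⟩
          exact ⟨fun j hj => h3 j hj, h4⟩
      have h3 : (fun ω (_ : Unit) => V (r n) ω - V (r k) ω) ⁻¹' {x : Unit → ℝ | x () < 0} =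
          {ω | S n ω - S k ω < 0} := rfl
      rw [h2, h3] at h1
      have h4 : P.real {ω | S n ω - S k ω < 0} ≤ 1 / 2 :=
        half ((hSm n le_rfl).sub (hSm k hk)) (law_sub hG hmean hcov (hrm hk) hrn.le)
      rw [measureReal_def, h1, ENNReal.toReal_mul, ← measureReal_def, ← measureReal_def]
      have h5 : 0 ≤ P.real (fp S y k) := measureReal_nonneg
      nlinarith
    have hd := discrete P S n hSm hy he.le hS0 hE
    -- the increments
    have hN : P.real {ω | ∃ k, k < n ∧ e < |S (k + 1) ω - S k ω|} ≤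
        2 * (n * Real.exp (-(e ^ 2 / (2 * (σ * c)))) ^ n) := by
      have h1 : {ω | ∃ k, k < n ∧ e < |S (k + 1) ω - S k ω|} =
          ⋃ k ∈ Finset.range n, {ω | e < |S (k + 1) ω - S k ω|} := by
        ext ω
        simp
      rw [h1]
      refine (measureReal_biUnion_finset_le _ _).trans ?_
      have h2 : ∀ k ∈ Finset.range n, P.real {ω | e < |S (k + 1) ω - S k ω|} ≤
          2 * Real.exp (-(e ^ 2 / (2 * (σ * c)))) ^ n := by
        intro k hk
        have hk' := Finset.mem_range.1 hk
        have hlaw := law_sub hG hmean hcov (hrm (Nat.le_succ k)) (hrc (k + 1) (by omega))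
        have hm : Measurable (fun ω => V (r (k + 1)) ω - V (r k) ω) :=
          (hSm (k + 1) (by omega)).sub (hSm k (by omega))
        have hdiff : (σ * ((r (k + 1) : ℝ≥0) - (r k : ℝ≥0) : ℝ)) = σ * c / n := by
          have e1 : ((r (k + 1) : ℝ≥0) : ℝ) = ((k : ℝ) + 1) / n * c := by
            show (((((k + 1 : ℕ) : ℝ≥0)) / n * c : ℝ≥0) : ℝ) = _
            push_cast
            rfl
          have e2 : ((r k : ℝ≥0) : ℝ) = (k : ℝ) / n * c := by
            show ((((k : ℕ) : ℝ≥0) / n * c : ℝ≥0) : ℝ) = _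
            push_cast
            rfl
          rw [e1, e2]
          field_simp
          ring
        rw [hdiff] at hlaw
        have hvpos : 0 < (σ * c / n).toNNReal := Real.toNNReal_pos.2 (by positivity)
        have ht := tail hm hlaw hvpos he
        have hcoe : (((σ * c / n).toNNReal : ℝ≥0) : ℝ) = σ * c / n :=
          Real.coe_toNNReal _ (by positivity)
        rw [hcoe] at ht
        have hexp : Real.exp (-(e ^ 2 / (2 * (σ * c / n)))) =
            Real.exp (-(e ^ 2 / (2 * (σ * c)))) ^ n := by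
          rw [← Real.exp_nat_mul]
          congr 1
          field_simp
        rw [hexp] at ht
        have hsym := symm_law hm hlaw e
        have hsub2 : {ω | e < |S (k + 1) ω - S k ω|} ⊆
            {ω | V (r (k + 1)) ω - V (r k) ω < -e} ∪ {ω | e < V (r (k + 1)) ω - V (r k) ω} := by
          intro ω hω
          have hω' : e < |V (r (k + 1)) ω - V (r k) ω| := hω
          rcases lt_abs.1 hω' with h | h
          · exact Or.inr h
          · left
            show V (r (k + 1)) ω - V (r k) ω < -e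
            linarith
        have hle : P.real {ω | e < V (r (k + 1)) ω - V (r k) ω} ≤
            P.real {ω | e ≤ V (r (k + 1)) ω - V (r k) ω} :=
          measureReal_mono fun ω hω => by
            have h' : e < V (r (k + 1)) ω - V (r k) ω := hω
            show e ≤ V (r (k + 1)) ω - V (r k) ω
            exact h'.le
        have := (measureReal_mono (μ := P) hsub2).trans (measureReal_union_le _ _)
        linarith
      refine (Finset.sum_le_sum h2).trans (le_of_eq ?_)
      rw [Finset.sum_const, Finset.card_range, nsmul_eq_mul]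
      ring
    -- the law at time `c`
    have hlawc : P.map (V c) = gaussianReal 0 v := by
      have h1 := law_sub hG hmean hcov (s := 0) (t := c) bot_le le_rfl
      have h2 : (fun ω => V c ω - V 0 ω) = V c := by
        funext ω
        rw [hV0, sub_zero]
      rw [h2] at h1
      rw [h1, hv]
      simp
    have hSn : S n = V c := by
      show V (r n) = V c
      rw [hrn]
    have hmc : Measurable (V c) := hmeas c le_rfl
    have hb := ball hmc hlawc hv0 (a := y + e) (by linarith)
    rw [hvR] at hb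
    have hs2 := symm_law hmc hlawc (y + e)
    have hcompl : P.real {ω | |V c ω| ≤ y + e}ᶜ = 1 - P.real {ω | |V c ω| ≤ y + e} :=
      probReal_compl_eq_one_sub (measurableSet_le hmc.abs measurable_const)
    have hcs : {ω | |V c ω| ≤ y + e}ᶜ ⊆ {ω | V c ω < -(y + e)} ∪ {ω | y + e < V c ω} := by
      intro ω hω
      have hω' : y + e < |V c ω| := not_le.1 hω
      rcases lt_abs.1 hω' with h | h
      · exact Or.inr h
      · left
        show V c ω < -(y + e)
        linarith
    have hcs' := (measureReal_mono (μ := P) hcs).trans (measureReal_union_le _ _)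
    -- the event
    have hFm : MeasurableSet {ω | ∃ k, k ≤ n ∧ S k ω < -y} := by
      have : {ω | ∃ k, k ≤ n ∧ S k ω < -y} = ⋃ k, ⋃ (_ : k ≤ n), {ω | S k ω < -y} := by
        ext ω
        simp
      rw [this]
      exact MeasurableSet.iUnion fun k => MeasurableSet.iUnion fun hk =>
        measurableSet_lt (hSm k hk) measurable_const
    have hGF : G ⊆ {ω | ∃ k, k ≤ n ∧ S k ω < -y}ᶜ := by
      rintro ω hω ⟨k, hk, h⟩
      have := hω (r k) (hrc k hk)
      have h' : V (r k) ω < -y := h
      linarith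
    have hGF' := measureReal_mono (μ := P) hGF
    rw [probReal_compl_eq_one_sub hFm] at hGF'
    rw [hSn] at hd
    linarith
  -- the limits
  have hlim : ∀ e : ℝ, 0 < e → P.real G ≤ (y + e) / √(σ * c) := by
    intro e he
    have hx : Real.exp (-(e ^ 2 / (2 * (σ * c)))) < 1 := by
      rw [Real.exp_lt_one_iff, neg_lt_zero]
      positivity
    have ht := (tendsto_self_mul_const_pow_of_lt_one (Real.exp_pos _).le hx).const_mul 4
    have ht' := ht.const_add ((y + e) / √(σ * c))
    rw [mul_zero, add_zero] at ht'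
    refine ge_of_tendsto ht' ?_
    filter_upwards [eventually_ge_atTop 1] with n hn
    exact hgrid e he n hn
  have hfin : P.real G ≤ y / √(σ * c) := by
    have hs : 0 < √(σ * c) := Real.sqrt_pos.2 hσc
    apply le_of_forall_pos_le_add
    intro δ hδ
    have h1 := hlim (δ * √(σ * c)) (by positivity)
    have h2 : (y + δ * √(σ * c)) / √(σ * c) = y / √(σ * c) + δ := by
      field_simp
    linarith
  rw [ENNReal.le_ofReal_iff_toReal_le (measure_ne_top _ _) (by positivity)]
  exact hfin

end Pool.Agent.R662.ATREFL
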