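import Mathlib

set_option autoImplicit false


namespace Pool.Agent.R662.LatDual

/-- the annihilator of a subgroup in the group of characters with values in `ℚ/ℤ` -/
def ann {A : Type} [AddCommGroup A] (H : AddSubgroup A) : AddSubgroup (CharacterModule A) where
  carrier := {c | ∀ a ∈ H, c a = 0}
  add_mem' := by
    intro c d hc hd a ha
    change c a + d a = 0
    rw [hc a ha, hd a ha, add_zero]
  zero_mem' := by
    intro a _
    rfl
  neg_mem' := by
    intro c hc a ha
    change - c a = 0
    rw [hc a ha, neg_zero]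

theorem mem_ann {A : Type} [AddCommGroup A] (H : AddSubgroup A) (c : CharacterModule A) :
    c ∈ ann H ↔ ∀ a ∈ H, c a = 0 := Iff.rfl

theorem ann_sup {A : Type} [AddCommGroup A] (H K : AddSubgroup A) :
    ann (H ⊔ K) = ann H ⊓ ann K := by
  ext c
  rw [AddSubgroup.mem_inf, mem_ann, mem_ann, mem_ann]
  constructor
  · intro h
    exact ⟨fun a ha => h a (AddSubgroup.mem_sup_left ha),
      fun a ha => h a (AddSubgroup.mem_sup_right ha)⟩
  · rintro ⟨h1, h2⟩ a ha
    obtain ⟨x, hx, y, hy, rfl⟩ := AddSubgroup.mem_sup.1 ha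
    rw [map_add, h1 x hx, h2 y hy, add_zero]

theorem ann_inf {A : Type} [AddCommGroup A] (H K : AddSubgroup A) :
    ann (H ⊓ K) = ann H ⊔ ann K := by
  apply le_antisymm
  · intro c hc
    let q : A ⧸ (H ⊓ K) →+ (A ⧸ H) × (A ⧸ K) :=
      QuotientAddGroup.lift (H ⊓ K)
        ((QuotientAddGroup.mk' H).prod (QuotientAddGroup.mk' K)) (by
          intro a ha
          rw [AddSubgroup.mem_inf] at ha
          ext
          · exact (QuotientAddGroup.eq_zero_iff a).2 ha.1
          · exact (QuotientAddGroup.eq_zero_iff a).2 ha.2)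
    have hq : Function.Injective q := by
      rw [injective_iff_map_eq_zero]
      intro x hx
      obtain ⟨a, rfl⟩ := QuotientAddGroup.mk_surjective x
      have h1 : (QuotientAddGroup.mk a : A ⧸ H) = 0 := congrArg Prod.fst hx
      have h2 : (QuotientAddGroup.mk a : A ⧸ K) = 0 := congrArg Prod.snd hx
      rw [QuotientAddGroup.eq_zero_iff] at h1 h2 ⊢
      exact ⟨h1, h2⟩
    let c' : CharacterModule (A ⧸ (H ⊓ K)) := QuotientAddGroup.lift (H ⊓ K) c hc
    obtain ⟨e, he⟩ := CharacterModule.dual_surjective_of_injective (R := ℤ) q.toIntLinearMap hq c'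
    have he' : ∀ a : A, e ((QuotientAddGroup.mk a : A ⧸ H), (QuotientAddGroup.mk a : A ⧸ K)) = c a := by
      intro a
      exact congrArg (fun d : CharacterModule (A ⧸ (H ⊓ K)) => d (QuotientAddGroup.mk a)) he
    let c1 : CharacterModule A := AddMonoidHom.comp (AddMonoidHom.comp e
      (AddMonoidHom.inl (A ⧸ H) (A ⧸ K))) (QuotientAddGroup.mk' H)
    let c2 : CharacterModule A := AddMonoidHom.comp (AddMonoidHom.comp e
      (AddMonoidHom.inr (A ⧸ H) (A ⧸ K))) (QuotientAddGroup.mk' K)
    rw [AddSubgroup.mem_sup]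
    refine ⟨c1, ?_, c2, ?_, ?_⟩
    · intro a ha
      change e ((QuotientAddGroup.mk a : A ⧸ H), 0) = 0
      rw [(QuotientAddGroup.eq_zero_iff a).2 ha]
      exact map_zero e
    · intro a ha
      change e (0, (QuotientAddGroup.mk a : A ⧸ K)) = 0
      rw [(QuotientAddGroup.eq_zero_iff a).2 ha]
      exact map_zero e
    · apply CharacterModule.ext
      intro a
      change e ((QuotientAddGroup.mk a : A ⧸ H), 0) + e (0, (QuotientAddGroup.mk a : A ⧸ K)) = c a
      rw [← map_add, ← he' a]
      congr 1
      ext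
      · exact add_zero _
      · exact zero_add _
  · rw [sup_le_iff]
    exact ⟨fun c hc a ha => hc a ha.1, fun c hc a ha => hc a ha.2⟩

theorem ann_anti {A : Type} [AddCommGroup A] (H K : AddSubgroup A) (h : ann K ≤ ann H) :
    H ≤ K := by
  intro a ha
  by_contra hK
  have h0 : (QuotientAddGroup.mk a : A ⧸ K) ≠ 0 := by
    rw [Ne, QuotientAddGroup.eq_zero_iff]
    exact hK
  obtain ⟨c, hc⟩ := CharacterModule.exists_character_apply_ne_zero_of_ne_zero h0
  have h1 : (AddMonoidHom.comp c (QuotientAddGroup.mk' K) : CharacterModule A) ∈ ann K := by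
    intro b hb
    change c (QuotientAddGroup.mk b : A ⧸ K) = 0
    rw [(QuotientAddGroup.eq_zero_iff b).2 hb]
    exact map_zero c
  exact hc (h h1 a ha)

theorem ann_injective {A : Type} [AddCommGroup A] :
    Function.Injective (ann : AddSubgroup A → AddSubgroup (CharacterModule A)) :=
  fun H K h => le_antisymm (ann_anti H K h.ge) (ann_anti K H h.le)

/-- For every lattice L, if L embeds as a lattice into the subgroup lattice of some abelian group, then its order dual also embeds as a lattice into the subgroup lattice of some abelian group. -/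
theorem result :
    ∀ (L : Type) [Lattice L],
      (∃ (A : Type) (_ : AddCommGroup A), ∃ f : LatticeHom L (AddSubgroup A), Function.Injective f) →
      (∃ (B : Type) (_ : AddCommGroup B), ∃ g : LatticeHom Lᵒᵈ (AddSubgroup B), Function.Injective g) := by
  rintro L _ ⟨A, _, f, hf⟩
  refine ⟨CharacterModule A, inferInstance,
    { toFun := fun x => ann (f (OrderDual.ofDual x))
      map_sup' := fun x y => ?_
      map_inf' := fun x y => ?_ }, ?_⟩
  · rw [ofDual_sup, map_inf, ann_inf]
  · rw [ofDual_inf, map_sup, ann_sup]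
  · intro x y hxy
    exact OrderDual.ofDual.injective (hf (ann_injective hxy))


end Pool.Agent.R662.LatDual
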